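import Pool.Agent.Lib.MP_610fe3_an.H6G.Bound
import Pool.Agent.Lib.MP_610fe3_an.H6.Chn

/-!
# The special unstable curve

If every point `x` of a set `F` is such that some unstable arc with slow growth goes from `f x` to
a point of `F`, then there are unstable arcs with slow growth from any `q ∈ F` to points of
`f^{-k} F`, with constants which do not depend on `k`.
-/

open Set Filter Function
open scoped Topology

namespace Pool.Agent.Lib.MP610fe3.H6

open Cf

variable {M : Type*} [MetricSpace M] {f : M ≃ₜ M}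

/-- Every point of `f F` is joined to a point of `F` by an unstable arc with slow growth. -/
def Exits (f : M ≃ₜ M) (ε α Λ : ℝ) (F : Set M) : Prop :=
  ∀ x ∈ F, ∃ γ : ℝ → M, UArc f γ 0 1 ∧ γ 0 = f x ∧ γ 1 ∈ F ∧ Upp f ε α Λ γ

theorem UArc.union {γ : ℝ → M} {a b c : ℝ} (hab : a ≤ b) (hbc : b ≤ c) (h : UArc f γ a b)
    (h' : UArc f γ b c) : UArc f γ a c := by
  refine ⟨?_, fun ε hε => ?_⟩
  · rw [← Icc_union_Icc_eq_Icc hab hbc]
    exact h.cont.union_of_isClosed h'.cont isClosed_Icc isClosed_Icc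
  · obtain ⟨N, hN⟩ := h.asymp (ε / 2) (by positivity)
    obtain ⟨N', hN'⟩ := h'.asymp (ε / 2) (by positivity)
    have key : ∀ n ≥ max N N', ∀ t ∈ Icc a c,
        dist (f.symm^[n] (γ t)) (f.symm^[n] (γ b)) ≤ ε / 2 := by
      intro n hn t ht
      rcases le_total t b with htb | htb
      · exact hN n ((le_max_left _ _).trans hn) t ⟨ht.1, htb⟩ b ⟨hab, le_rfl⟩
      · exact hN' n ((le_max_right _ _).trans hn) t ⟨htb, ht.2⟩ b ⟨le_rfl, hbc⟩
    refine ⟨max N N', fun n hn t ht t' ht' => ?_⟩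
    have h1 := key n hn t ht
    have h2 := key n hn t' ht'
    have h3 := dist_triangle_right (f.symm^[n] (γ t)) (f.symm^[n] (γ t')) (f.symm^[n] (γ b))
    linarith

/-- Sequences of exit arcs. -/
structure Seq (f : M ≃ₜ M) (ε α Λ : ℝ) (F : Set M) (y : ℕ → M) (g : ℕ → ℝ → M) : Prop where
  mem : ∀ i, y i ∈ F
  arc : ∀ i, UArc f (g i) 0 1
  start : ∀ i, g i 0 = f (y i)
  stop : ∀ i, g i 1 = y (i + 1)
  upp : ∀ i, Upp f ε α Λ (g i)

theorem exists_seq {ε α Λ : ℝ} {F : Set M} (h : Exits f ε α Λ F) {q : M} (hq : q ∈ F) :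
    ∃ (y : ℕ → M) (g : ℕ → ℝ → M), y 0 = q ∧ Seq f ε α Λ F y g := by
  classical
  choose! Γ hΓ h0 h1 hu using h
  set y : ℕ → M := fun n => Nat.rec q (fun _ z => Γ z 1) n with hy
  have hy1 : ∀ n, y (n + 1) = Γ (y n) 1 := fun n => rfl
  have hmem : ∀ n, y n ∈ F := by
    intro n
    induction n with
    | zero => exact hq
    | succ n ih => rw [hy1]; exact h1 _ ih
  exact ⟨y, fun i => Γ (y i), rfl, hmem, fun i => hΓ _ (hmem i), fun i => h0 _ (hmem i),
    fun i => (hy1 i).symm, fun i => hu _ (hmem i)⟩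

/-- The infinite curve. -/
noncomputable def crv (f : M ≃ₜ M) (g : ℕ → ℝ → M) (s : ℝ) : M :=
  f.symm^[⌊s⌋₊ + 1] (g ⌊s⌋₊ (s - ⌊s⌋₊))

variable {ε α Λ : ℝ} {F : Set M} {y : ℕ → M} {g : ℕ → ℝ → M}

theorem Seq.crv_eq (h : Seq f ε α Λ F y g) (i : ℕ) {s : ℝ} (hs : s ∈ Icc (i : ℝ) (i + 1)) :
    crv f g s = f.symm^[i + 1] (g i (s - i)) := by
  rcases eq_or_lt_of_le hs.2 with hs1 | hs1
  · have e : ⌊s⌋₊ = i + 1 := by
      rw [hs1, show (i : ℝ) + 1 = ((i + 1 : ℕ) : ℝ) by push_cast; ring, Nat.floor_natCast]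
    rw [crv, e, hs1]
    have e1 : (i : ℝ) + 1 - ((i + 1 : ℕ) : ℝ) = 0 := by push_cast; ring
    have e2 : (i : ℝ) + 1 - i = 1 := by ring
    rw [e1, e2, h.start, h.stop, iterate_succ_apply, Homeomorph.symm_apply_apply]
  · have e : ⌊s⌋₊ = i := by
      rw [Nat.floor_eq_iff ((Nat.cast_nonneg i).trans hs.1)]
      exact ⟨hs.1, hs1⟩
    rw [crv, e]

theorem Seq.crv_nat (h : Seq f ε α Λ F y g) (i : ℕ) : crv f g i = f.symm^[i] (y i) := by
  rw [h.crv_eq i ⟨le_rfl, by linarith⟩, sub_self, h.start, iterate_succ_apply,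
    Homeomorph.symm_apply_apply]

theorem Seq.crv_arc (h : Seq f ε α Λ F y g) (i : ℕ) : UArc f (crv f g) i (i + 1) := by
  have h1 := ((h.arc i).symm_iter (i + 1)).affine (α := 1) (β := -i) (c := i) (d := i + 1)
    zero_le_one (by ring_nf; exact le_rfl) (by ring_nf; exact le_rfl)
  refine h1.congr fun s hs => ?_
  rw [h.crv_eq i hs]
  congr 2
  ring

theorem Seq.crv_arc' (h : Seq f ε α Λ F y g) (k : ℕ) : UArc f (crv f g) 0 k := by
  induction k with
  | zero =>
    have := (h.crv_arc 0).mono (c := 0) (d := 0) (by simp) (by simp)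
    simpa using this
  | succ k ih =>
    push_cast
    exact ih.union (Nat.cast_nonneg k) (by linarith) (h.crv_arc k)

/-- Steps of the pieces of the curve: the pieces which have left. -/
theorem Seq.crv_steps (h : Seq f ε α Λ F y g) {i n : ℕ} (hin : i + 1 ≤ n) :
    ∃ K : ℕ, (K : ℝ) ≤ Λ * Real.exp (α * (n - (i + 1 : ℕ))) ∧
      Steps f n ε (crv f g) i (i + 1) K := by
  obtain ⟨m, rfl⟩ := Nat.exists_eq_add_of_le hin
  obtain ⟨K, hK, hS⟩ := h.upp i m
  refine ⟨K, ?_, ?_⟩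
  · have e : ((i + 1 + m : ℕ) : ℝ) - ((i + 1 : ℕ) : ℝ) = m := by push_cast; ring
    rw [e]
    exact hK
  · have h1 : Steps f (m + (i + 1)) ε (fun t => f.symm^[i + 1] (g i t)) 0 1 K := hS.symm_iter
    have h2 : Steps f (m + (i + 1)) ε (fun t => f.symm^[i + 1] (g i t)) (1 * (i : ℝ) + (-i))
        (1 * ((i : ℝ) + 1) + (-i)) K := by
      have e1 : (1 : ℝ) * i + (-i) = 0 := by ring
      have e2 : (1 : ℝ) * ((i : ℝ) + 1) + (-i) = 1 := by ring
      rw [e1, e2]
      exact h1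
    have h3 := h2.affine one_pos
    rw [add_comm (i + 1) m]
    refine h3.congr fun s hs => ?_
    rw [h.crv_eq i hs]
    congr 2
    ring

/-- Steps of the pieces of the curve: the pieces which are contracted. -/
theorem Seq.crv_steps' {ε₀ C θ : ℝ} (hD : Dec f.symm ε₀ C θ) (hε : 0 < ε)
    (hε₀ : 3 * C * ε < ε₀) (h : Seq f ε α Λ F y g) {m : ℕ} (hm : C * θ ^ m ≤ 1) {i n : ℕ}
    (hin : n ≤ i) : ∃ K : ℕ, (K : ℝ) ≤ Λ * Real.exp (α * m) ∧
      Steps f n ε (crv f g) i (i + 1) K := by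
  have hC := hD.one_le
  obtain ⟨K, hK, hS⟩ := h.upp i m
  refine ⟨K, hK, ?_⟩
  obtain ⟨c, hc, h0, hcK, H⟩ := hS
  refine ⟨fun l => c l + i, fun a b hab => by simpa using hc hab, by simp [h0],
    by simp [hcK, add_comm], fun l hl t ht t' ht' => ?_⟩
  have hcl : 0 ≤ c l := by rw [← h0]; exact hc (Nat.zero_le _)
  have hcl' : c (l + 1) ≤ 1 := by rw [← hcK]; exact hc hl
  have htI : t - i ∈ Icc (c l) (c (l + 1)) := ⟨by linarith [ht.1], by linarith [ht.2]⟩
  have htI' : t' - i ∈ Icc (c l) (c (l + 1)) := ⟨by linarith [ht'.1], by linarith [ht'.2]⟩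
  have e : ∀ u : ℝ, u - i ∈ Icc (c l) (c (l + 1)) →
      f^[n] (crv f g u) = f.symm^[i + 1 - n] (g i (u - i)) := by
    intro u hu
    rw [h.crv_eq i ⟨by linarith [hu.1], by linarith [hu.2]⟩,
      iterate_symm_of_le f (by omega : n ≤ i + 1)]
  rw [e t htI, e t' htI']
  have h1 := (h.arc i).mem_loc' hD hε hε₀ (N := m) (c := c l) (d := c (l + 1)) hcl hcl'
    (fun τ hτ τ' hτ' => (H l hl τ hτ τ' hτ').trans (by linarith)) htI htI'
  have h2 := hD.dec _ _ h1 (i + 1 - n + m)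
  rw [iterate_add_apply, iterate_add_apply, Cf.symm_iterate_iterate,
    Cf.symm_iterate_iterate] at h2
  refine h2.trans ?_
  have h3 : θ ^ (i + 1 - n + m) ≤ θ ^ m :=
    pow_le_pow_of_le_one hD.l_pos.le hD.l_lt.le (Nat.le_add_left _ _)
  have h4 := H l hl _ htI _ htI'
  have h5 : 0 ≤ θ ^ m := pow_nonneg hD.l_pos.le _
  calc C * θ ^ (i + 1 - n + m) * dist (f^[m] (g i (t - i))) (f^[m] (g i (t' - i)))
      ≤ C * θ ^ m * ε := by gcongr
    _ ≤ 1 * ε := by gcongr
    _ = ε := one_mul ε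

/-- The tail of the curve. -/
theorem Seq.crv_tail {ε₀ C θ : ℝ} (hD : Dec f.symm ε₀ C θ) (hε : 0 < ε) (hΛ : 0 ≤ Λ)
    (hε₀ : 3 * C * ε < ε₀) (h : Seq f ε α Λ F y g) {n j : ℕ} (k : ℕ) {s : ℝ}
    (hs : s ∈ Icc ((n + j : ℕ) : ℝ) ((n + j + k : ℕ) : ℝ)) :
    dist (f^[n] (crv f g s)) (f^[n] (crv f g ((n + j : ℕ) : ℝ))) ≤
      3 * ε * C * Λ / (1 - θ) * (θ ^ j - θ ^ (j + k)) := by
  have hC := hD.one_le
  have hθ := hD.l_pos
  have hθ1 := hD.l_lt
  have h1θ : 0 < 1 - θ := by linarith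
  induction k generalizing s with
  | zero =>
    have : s = ((n + j : ℕ) : ℝ) := le_antisymm (by simpa using hs.2) hs.1
    rw [this, dist_self]
    simp
  | succ k ih =>
    rcases le_total s ((n + j + k : ℕ) : ℝ) with hsk | hsk
    · refine (ih ⟨hs.1, hsk⟩).trans ?_
      have h1 : θ ^ (j + (k + 1)) ≤ θ ^ (j + k) :=
        pow_le_pow_of_le_one hθ.le hθ1.le (by omega)
      have h2 : 0 ≤ 3 * ε * C * Λ / (1 - θ) := by positivity
      exact mul_le_mul_of_nonneg_left (by linarith) h2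
    · set i : ℕ := n + j + k with hi
      have hsI : s ∈ Icc (i : ℝ) (i + 1) := by
        refine ⟨hsk, ?_⟩
        have := hs.2
        rw [show n + j + (k + 1) = i + 1 by omega] at this
        push_cast at this ⊢
        exact this
      have hstart := ih (s := (i : ℝ)) ⟨by rw [hi]; push_cast; linarith [Nat.cast_nonneg (α := ℝ) k],
        le_rfl⟩
      obtain ⟨K, hK, hS⟩ := h.upp i 0
      have h2 := (h.arc i).dist_le hD hε hε₀ (hS.mono_eps (by linarith : ε ≤ 3 * ε))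
        (i + 1 - n) (t := s - i) (t' := 0) ⟨by linarith [hsI.1], by linarith [hsI.2]⟩
        ⟨le_rfl, zero_le_one⟩
      have e1 : f^[n] (crv f g s) = f.symm^[i + 1 - n] (g i (s - i)) := by
        rw [h.crv_eq i hsI, iterate_symm_of_le f (by omega : n ≤ i + 1)]
      have e2 : f^[n] (crv f g (i : ℝ)) = f.symm^[i + 1 - n] (g i 0) := by
        rw [h.crv_eq i ⟨le_rfl, by linarith⟩, iterate_symm_of_le f (by omega : n ≤ i + 1),
          sub_self]
      rw [← e1, ← e2] at h2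
      have hKΛ : (K : ℝ) ≤ Λ := by
        simpa using hK
      have h3 : (K : ℝ) * (3 * ε * C * θ ^ (0 + (i + 1 - n))) ≤
          Λ * (3 * ε * C * θ ^ (j + k)) := by
        have h4 : θ ^ (0 + (i + 1 - n)) ≤ θ ^ (j + k) :=
          pow_le_pow_of_le_one hθ.le hθ1.le (by omega)
        have h5 : 0 ≤ θ ^ (0 + (i + 1 - n)) := by positivity
        gcongr
      have h6 := dist_triangle (f^[n] (crv f g s)) (f^[n] (crv f g (i : ℝ)))
        (f^[n] (crv f g ((n + j : ℕ) : ℝ)))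
      have h7 : Λ * (3 * ε * C * θ ^ (j + k)) =
          3 * ε * C * Λ / (1 - θ) * (θ ^ (j + k) - θ ^ (j + (k + 1))) := by
        rw [← add_assoc, pow_succ θ (j + k)]
        field_simp
      have h8 : 3 * ε * C * Λ / (1 - θ) * (θ ^ j - θ ^ (j + (k + 1))) =
          3 * ε * C * Λ / (1 - θ) * (θ ^ j - θ ^ (j + k)) +
          3 * ε * C * Λ / (1 - θ) * (θ ^ (j + k) - θ ^ (j + (k + 1))) := by ring
      rw [h8, ← h7]
      linarith

/-- All steps of the curve. -/
theorem Seq.exists_upp {ε₀ C θ : ℝ} (hD : Dec f.symm ε₀ C θ) (hε : 0 < ε) (hα : 0 < α)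
    (hΛ : 0 ≤ Λ) (hε₀ : 3 * C * ε < ε₀) :
    ∃ Λ' : ℝ, 0 ≤ Λ' ∧ ∀ (y : ℕ → M) (g : ℕ → ℝ → M), Seq f ε α Λ F y g → ∀ n k : ℕ,
      ∃ K : ℕ, (K : ℝ) ≤ Λ' * Real.exp (α * n) ∧ Steps f n ε (crv f g) 0 k K := by
  have hC := hD.one_le
  have hθ := hD.l_pos
  have hθ1 := hD.l_lt
  have h1θ : 0 < 1 - θ := by linarith
  obtain ⟨m, hm⟩ := exists_pow_le (C := C) (ε := 1) hθ hθ1 (δ := 1) one_pos
  rw [mul_one] at hm
  obtain ⟨J, hJ⟩ := exists_pow_le (C := 3 * ε * C * Λ / (1 - θ)) (ε := 1) hθ hθ1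
    (δ := ε / 2) (by positivity)
  rw [mul_one] at hJ
  set E : ℝ := Real.exp α - 1 with hE
  have hE0 : 0 < E := by
    have := Real.add_one_lt_exp hα.ne'
    rw [hE]
    linarith
  set B : ℝ := Λ * Real.exp (α * m) with hB
  have hB0 : 0 ≤ B := by positivity
  refine ⟨Λ / E + J * B + 1, by positivity, fun y g h n k => ?_⟩
  have h0 : UArc f (crv f g) 0 ((0 : ℕ) : ℝ) := h.crv_arc' 0
  -- the pieces which have left
  have hA : ∀ i ≤ n, ∃ K : ℕ, (K : ℝ) ≤ Λ / E * (Real.exp (α * n) - Real.exp (α * (n - i))) ∧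
      Steps f n ε (crv f g) 0 i K := by
    intro i
    induction i with
    | zero =>
      intro _
      refine ⟨0, by simp, fun _ => 0, monotone_const, rfl, by simp, fun i hi => ?_⟩
      omega
    | succ i ih =>
      intro hi
      obtain ⟨K, hK, hS⟩ := ih (by omega)
      obtain ⟨L, hL, hS'⟩ := h.crv_steps hi
      refine ⟨K + L, ?_, ?_⟩
      · push_cast at hL ⊢
        have e1 : Real.exp (α * (n - i)) = Real.exp (α * (n - (i + 1))) * Real.exp α := by
          rw [← Real.exp_add]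
          congr 1
          ring
        have e2 : Λ / E * (Real.exp (α * n) - Real.exp (α * (n - (i + 1)))) =
            Λ / E * (Real.exp (α * n) - Real.exp (α * (n - i))) +
            Λ * Real.exp (α * (n - (i + 1))) := by
          rw [e1]
          field_simp
          rw [hE]
          ring
        rw [e2]
        linarith
      · push_cast
        exact hS.append hS'
  -- the following pieces
  have hA' : ∀ j : ℕ, ∃ K : ℕ, (K : ℝ) ≤ Λ / E * Real.exp (α * n) + j * B ∧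
      Steps f n ε (crv f g) 0 ((n + j : ℕ) : ℝ) K := by
    intro j
    induction j with
    | zero =>
      obtain ⟨K, hK, hS⟩ := hA n le_rfl
      refine ⟨K, ?_, by simpa using hS⟩
      have h1 : 0 < Real.exp (α * (n - n)) := Real.exp_pos _
      have h2 : 0 ≤ Λ / E := by positivity
      push_cast
      nlinarith
    | succ j ih =>
      obtain ⟨K, hK, hS⟩ := ih
      obtain ⟨L, hL, hS'⟩ := h.crv_steps' hD hε hε₀ hm (i := n + j) (n := n) (by omega)
      refine ⟨K + L, ?_, ?_⟩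
      · push_cast
        rw [← hB] at hL
        linarith
      · have : (((n + (j + 1) : ℕ)) : ℝ) = ((n + j : ℕ) : ℝ) + 1 := by push_cast; ring
        rw [this]
        exact hS.append hS'
  obtain ⟨K, hK, hS⟩ := hA' J
  have hexp1 : 1 ≤ Real.exp (α * n) := Real.one_le_exp (by positivity)
  have hbound : Λ / E * Real.exp (α * n) + J * B + 1 ≤ (Λ / E + J * B + 1) * Real.exp (α * n) := by
    have h1 : 0 ≤ (J : ℝ) * B := by positivity
    nlinarith
  rcases le_total k (n + J) with hk | hk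
  · refine ⟨K, by linarith, hS.sub le_rfl (Nat.cast_nonneg k) (by exact_mod_cast hk)⟩
  · obtain ⟨l, rfl⟩ := Nat.exists_eq_add_of_le hk
    have hone : Steps f n ε (crv f g) ((n + J : ℕ) : ℝ) ((n + J + l : ℕ) : ℝ) 1 := by
      refine Steps.one (by push_cast; linarith [Nat.cast_nonneg (α := ℝ) l])
        fun t ht t' ht' => ?_
      have h1 := h.crv_tail hD hε hΛ hε₀ l ht
      have h2 := h.crv_tail hD hε hΛ hε₀ l ht'
      have h3 := dist_triangle_right (f^[n] (crv f g t)) (f^[n] (crv f g t'))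
        (f^[n] (crv f g ((n + J : ℕ) : ℝ)))
      have h4 : 3 * ε * C * Λ / (1 - θ) * (θ ^ J - θ ^ (J + l)) ≤ ε / 2 := by
        refine le_trans ?_ hJ
        have h5 : 0 ≤ θ ^ (J + l) := by positivity
        have h6 : 0 ≤ 3 * ε * C * Λ / (1 - θ) := by positivity
        exact mul_le_mul_of_nonneg_left (by linarith) h6
      linarith
    refine ⟨K + 1, ?_, hS.append hone⟩
    push_cast
    linarith

/-- The special curves. -/
theorem exists_special {ε₀ C θ : ℝ} (hD : Dec f.symm ε₀ C θ) (hε : 0 < ε) (hα : 0 < α)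
    (hΛ : 0 ≤ Λ) (hε₀ : 3 * C * ε < ε₀) (hex : Exits f ε α Λ F) {q : M} (hq : q ∈ F) :
    ∃ Λ' : ℝ, 0 ≤ Λ' ∧ ∀ k : ℕ, ∃ x : ℝ → M, UArc f x 0 1 ∧ x 0 = q ∧ f^[k] (x 1) ∈ F ∧
      Upp f ε α Λ' x := by
  obtain ⟨y, g, hy, hS⟩ := exists_seq hex hq
  obtain ⟨Λ', hΛ', H⟩ := Seq.exists_upp (F := F) hD hε hα hΛ hε₀
  refine ⟨Λ' + 1, by linarith, fun k => ?_⟩
  rcases Nat.eq_zero_or_pos k with rfl | hk
  · refine ⟨fun _ => q, ⟨continuousOn_const, fun ε' hε' => ⟨0, fun n _ t _ t' _ => ?_⟩⟩, rfl, hq,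
      fun n => ⟨1, ?_, ?_⟩⟩
    · rw [dist_self]
      exact hε'.le
    · have h1 : 1 ≤ Real.exp (α * n) := Real.one_le_exp (by positivity)
      push_cast
      nlinarith
    · refine Steps.one zero_le_one fun t _ t' _ => ?_
      rw [dist_self]
      exact hε.le
  · have hk0 : (0 : ℝ) < k := by exact_mod_cast hk
    refine ⟨fun t => crv f g (k * t + 0), ?_, ?_, ?_, fun n => ?_⟩
    · exact (hS.crv_arc' k).affine hk0.le (by simp) (by simp)
    · have := hS.crv_nat 0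
      simp only [Nat.cast_zero, iterate_zero, id_eq] at this
      simp only [mul_zero, add_zero]
      rw [this, hy]
    · have := hS.crv_nat k
      simp only [mul_one, add_zero]
      rw [this, iterate_symm_iterate]
      exact hS.mem k
    · obtain ⟨K, hK, hSt⟩ := H y g hS n k
      refine ⟨K, ?_, ?_⟩
      · have : 0 < Real.exp (α * n) := Real.exp_pos _
        nlinarith
      · refine Steps.affine ?_ hk0
        simpa using hSt

end Pool.Agent.Lib.MP610fe3.H6
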