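import Pool.Agent.Lib.MP_610fe3_an.H6G.Corner
import Pool.Agent.Lib.MP_610fe3_an.H6G.Curve

/-!
# The growth theorem: abstract form
-/

open Set Filter Function
open scoped Topology

namespace Pool.Agent.Lib.MP610fe3.H6

open Cf

variable {M : Type*} [MetricSpace M] {f : M ≃ₜ M}

theorem iterate_mem_of_trap {U : Set M} (htrap : f '' closure U ⊆ U) {z : M} (hz : z ∈ U) (n : ℕ) :
    f^[n] z ∈ U := by
  induction n with
  | zero => exact hz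
  | succ n ih =>
    rw [iterate_succ_apply']
    exact htrap ⟨_, subset_closure ih, rfl⟩

theorem exists_trap_const [CompactSpace M] {U : Set M} (hU : IsOpen U)
    (htrap : f '' closure U ⊆ U) : ∃ δ : ℝ, 0 < δ ∧
      (∀ p ∈ closure U, ∀ z, dist z p ≤ δ → f z ∈ U) ∧
      (∀ p ∈ frontier U, ∀ z, dist z p ≤ δ → z ∉ f '' closure U) := by
  have h1 : closure U ⊆ f ⁻¹' U := fun p hp => htrap ⟨p, hp, rfl⟩
  obtain ⟨δ₁, hδ₁, h2⟩ := isClosed_closure.isCompact.exists_thickening_subset_open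
    (hU.preimage f.continuous) h1
  have hK : IsCompact (f '' closure U) := isClosed_closure.isCompact.image f.continuous
  have h3 : frontier U ⊆ (f '' closure U)ᶜ := by
    intro p hp hp'
    have : p ∈ U := htrap hp'
    rw [hU.frontier_eq] at hp
    exact hp.2 this
  obtain ⟨δ₂, hδ₂, h4⟩ := isClosed_frontier.isCompact.exists_thickening_subset_open
    hK.isClosed.isOpen_compl h3
  refine ⟨min δ₁ δ₂ / 2, by positivity, fun p hp z hz => ?_, fun p hp z hz => ?_⟩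
  · have : z ∈ Metric.thickening δ₁ (closure U) := by
      rw [Metric.mem_thickening_iff]
      exact ⟨p, hp, hz.trans_lt (by linarith [min_le_left δ₁ δ₂, hδ₁])⟩
    exact h2 this
  · have : z ∈ Metric.thickening δ₂ (frontier U) := by
      rw [Metric.mem_thickening_iff]
      exact ⟨p, hp, hz.trans_lt (by linarith [min_le_right δ₁ δ₂, hδ₂])⟩
    exact h4 this

/-- The abstract growth theorem. -/
theorem growth_abstract [CompactSpace M] {ε₀ C ν θ ε ε₁ CB : ℝ} (hD : Dec f ε₀ C ν)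
    (hD' : Dec f.symm ε₀ C θ) (hε : 0 < ε) (hε₀ : 3 * C * ε < ε₀) (hB : Br f ε CB)
    (hε₁ : 0 < ε₁) (hε₁ε : 2 * ε₁ ≤ ε) {U : Set M} (hU : IsOpen U) (htrap : f '' closure U ⊆ U)
    {q : M} (hq : q ∈ frontier U) {α₁ α₂ β₁ β₂ C₁ C₂ Λ Λ' : ℝ} (hα₁ : 0 < α₁) (hα : α₁ ≤ α₂)
    (hβ₁ : 0 < β₁) (hβ : β₁ ≤ β₂) (hC₁ : 0 ≤ C₁) (hC₂ : 0 ≤ C₂) (hΛ : 0 ≤ Λ) (hΛ' : 0 ≤ Λ')
    (hlow : Low f (3 * ε) α₁ C₁) (hlow' : Low f.symm (3 * ε) β₁ C₂)
    (hex : Exits f ε α₂ Λ (frontier U)) (hex' : Exits f.symm ε β₂ Λ' (frontier U)) :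
    α₁ * β₁ ≤ (α₂ - α₁) * (β₂ - β₁) := by
  by_contra hcon
  push Not at hcon
  have hC := hD.one_le
  have h3ε : 3 * ε ≤ ε₀ := by nlinarith
  have hεε₀ : ε ≤ ε₀ := by linarith
  obtain ⟨Λ₁, hΛ₁, hX⟩ := exists_special hD' hε (hα₁.trans_le hα) hΛ hε₀ hex hq
  obtain ⟨Λ₂, hΛ₂, hY⟩ := exists_special (f := f.symm) hD hε (hβ₁.trans_le hβ) hΛ' hε₀ hex' hq
  obtain ⟨N₀, hN₀⟩ := rect_bound_gen hα₁ hα hβ₁ hβ hcon hC₁ hC₂ hD hD' hε h3ε hlow hlow' Λ₁ Λ₂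
  obtain ⟨δ, hδ, hδ1, hδ2⟩ := exists_trap_const hU htrap
  obtain ⟨m₁, hm₁⟩ := exists_pow_le (C := C) (ε := ε) hD.l_pos hD.l_lt hδ
  obtain ⟨m₂, hm₂⟩ := exists_pow_le (C := C) (ε := ε) hD'.l_pos hD'.l_lt hδ
  set k : ℕ := m₁ + N₀ with hk
  set j : ℕ := m₂ + N₀ + 2 with hj
  obtain ⟨x, hxU, hx0, hx1, hxu⟩ := hX k
  obtain ⟨σ, hσU, hσ0, hσ1, hσu⟩ := hY j
  obtain ⟨w, hw1, hw2⟩ := exists_corner hD hD' hε hεε₀ hB hε₁ hε₁ε hxU hσU (hσ0.trans hx0.symm)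
    (fun T R hT hT1 hR hl hb => hN₀ x σ hxu hσu T R hT hT1 hR hl hb)
  -- `f^k w` is close to `f^k (x 1)`
  have h1 : dist (f^[k] w) (f^[k] (x 1)) ≤ δ := by
    have h2 : f^[N₀] w ∈ Wl f ε₀ (f^[N₀] (x 1)) := by
      intro i
      rw [← iterate_add_apply, ← iterate_add_apply]
      exact (hw1 (i + N₀) (by omega)).trans hεε₀
    have h3 := hD.dec _ _ h2 m₁
    rw [← iterate_add_apply, ← iterate_add_apply] at h3
    refine h3.trans (le_trans ?_ hm₁)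
    have h4 : 0 ≤ ν ^ m₁ := pow_nonneg hD.l_pos.le _
    have h5 := hw1 N₀ le_rfl
    gcongr
  have h2 : dist (f.symm^[j] w) (f.symm^[j] (σ 1)) ≤ δ := by
    have h2 : f.symm^[N₀] w ∈ Wl f.symm ε₀ (f.symm^[N₀] (σ 1)) := by
      intro i
      rw [← iterate_add_apply, ← iterate_add_apply]
      exact (hw2 (i + N₀) (by omega)).trans hεε₀
    have h3 := hD'.dec _ _ h2 (m₂ + 2)
    rw [← iterate_add_apply, ← iterate_add_apply, show m₂ + 2 + N₀ = j by omega] at h3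
    refine h3.trans (le_trans ?_ hm₂)
    have h4 : 0 ≤ θ ^ m₂ := pow_nonneg hD'.l_pos.le _
    have h6 : θ ^ (m₂ + 2) ≤ θ ^ m₂ :=
      pow_le_pow_of_le_one hD'.l_pos.le hD'.l_lt.le (Nat.le_add_right _ _)
    have h5 := hw2 N₀ le_rfl
    gcongr
  have h3 : f (f.symm^[j] w) ∈ U :=
    hδ1 _ (frontier_subset_closure hσ1) _ h2
  have h4 : f^[k] w ∈ f '' closure U := by
    refine ⟨f^[j + k - 2] (f (f.symm^[j] w)), subset_closure (iterate_mem_of_trap htrap h3 _), ?_⟩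
    rw [← iterate_succ_apply' (⇑f), ← iterate_succ_apply (⇑f)]
    have e : (j + k - 2).succ.succ = k + j := by omega
    rw [e, iterate_add_apply, iterate_symm_iterate]
  exact hδ2 _ hx1 _ h1 h4

end Pool.Agent.Lib.MP610fe3.H6
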