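import Pool.Agent.Lib.MP_610fe3_an.H6.Ext

/-!
# Arcs in unstable sets and the number of their steps
-/

open Set Filter Function
open scoped Topology

namespace Pool.Agent.Lib.MP610fe3.H6

open Cf

variable {M : Type*} [MetricSpace M]

/-- The arc `γ` on `[a, b]` is contained in an unstable set. -/
structure UArc (f : M ≃ₜ M) (γ : ℝ → M) (a b : ℝ) : Prop where
  cont : ContinuousOn γ (Icc a b)
  asymp : ∀ ε : ℝ, 0 < ε → ∃ N : ℕ, ∀ n ≥ N, ∀ t ∈ Icc a b, ∀ t' ∈ Icc a b,
    dist (f.symm^[n] (γ t)) (f.symm^[n] (γ t')) ≤ ε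

/-- The interval `[a, b]` can be cut into `K` intervals such that `f^n ∘ γ` varies by at most `ε`
on each of them. -/
def Steps (f : M ≃ₜ M) (n : ℕ) (ε : ℝ) (γ : ℝ → M) (a b : ℝ) (K : ℕ) : Prop :=
  ∃ c : ℕ → ℝ, Monotone c ∧ c 0 = a ∧ c K = b ∧ ∀ i < K, ∀ t ∈ Icc (c i) (c (i + 1)),
    ∀ t' ∈ Icc (c i) (c (i + 1)), dist (f^[n] (γ t)) (f^[n] (γ t')) ≤ ε

variable {f : M ≃ₜ M} {γ : ℝ → M} {a b : ℝ}

theorem UArc.mono (h : UArc f γ a b) {c d : ℝ} (hac : a ≤ c) (hdb : d ≤ b) : UArc f γ c d :=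
  ⟨h.cont.mono (Icc_subset_Icc hac hdb), fun ε hε => by
    obtain ⟨N, hN⟩ := h.asymp ε hε
    exact ⟨N, fun n hn t ht t' ht' => hN n hn t (Icc_subset_Icc hac hdb ht) t'
      (Icc_subset_Icc hac hdb ht')⟩⟩

/-- Images and preimages of unstable arcs. -/
theorem UArc.iter (h : UArc f γ a b) (n : ℕ) : UArc f (fun t => f^[n] (γ t)) a b :=
  ⟨(f.continuous.iterate n).comp_continuousOn h.cont, fun ε hε => by
    obtain ⟨N, hN⟩ := h.asymp ε hε
    refine ⟨N + n, fun m hm t ht t' ht' => ?_⟩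
    obtain ⟨j, rfl⟩ : ∃ j, m = j + n := ⟨m - n, by omega⟩
    rw [iterate_add_apply, iterate_add_apply, symm_iterate_iterate, symm_iterate_iterate]
    exact hN j (by omega) t ht t' ht'⟩

theorem UArc.symm_iter (h : UArc f γ a b) (n : ℕ) : UArc f (fun t => f.symm^[n] (γ t)) a b :=
  ⟨(f.symm.continuous.iterate n).comp_continuousOn h.cont, fun ε hε => by
    obtain ⟨N, hN⟩ := h.asymp ε hε
    refine ⟨N, fun m hm t ht t' ht' => ?_⟩
    rw [← iterate_add_apply, ← iterate_add_apply]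
    exact hN (m + n) (by omega) t ht t' ht'⟩

/-- Affine changes of the parameter. -/
theorem UArc.affine (h : UArc f γ a b) {α β c d : ℝ} (hα : 0 ≤ α)
    (hc : a ≤ α * c + β) (hd : α * d + β ≤ b) : UArc f (fun t => γ (α * t + β)) c d := by
  have hm : ∀ t ∈ Icc c d, α * t + β ∈ Icc a b := by
    intro t ht
    have h1 := mul_le_mul_of_nonneg_left ht.1 hα
    have h2 := mul_le_mul_of_nonneg_left ht.2 hα
    exact ⟨by linarith, by linarith⟩
  refine ⟨h.cont.comp (by fun_prop) hm, fun ε hε => ?_⟩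
  obtain ⟨N, hN⟩ := h.asymp ε hε
  exact ⟨N, fun n hn t ht t' ht' => hN n hn _ (hm t ht) _ (hm t' ht')⟩

theorem UArc.congr (h : UArc f γ a b) {γ' : ℝ → M} (he : ∀ t ∈ Icc a b, γ' t = γ t) :
    UArc f γ' a b :=
  ⟨h.cont.congr he, fun ε hε => by
    obtain ⟨N, hN⟩ := h.asymp ε hε
    exact ⟨N, fun n hn t ht t' ht' => by rw [he t ht, he t' ht']; exact hN n hn t ht t' ht'⟩⟩

/-! ### Steps -/

theorem Steps.le {n K : ℕ} {ε : ℝ} (h : Steps f n ε γ a b K) : a ≤ b := by
  obtain ⟨c, hc, h0, hK, -⟩ := h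
  rw [← h0, ← hK]
  exact hc (Nat.zero_le _)

theorem Steps.mono_eps {n K : ℕ} {ε ε' : ℝ} (h : Steps f n ε γ a b K) (hε : ε ≤ ε') :
    Steps f n ε' γ a b K := by
  obtain ⟨c, hc, h0, hK, H⟩ := h
  exact ⟨c, hc, h0, hK, fun i hi t ht t' ht' => (H i hi t ht t' ht').trans hε⟩

theorem Steps.congr {n K : ℕ} {ε : ℝ} (h : Steps f n ε γ a b K) {γ' : ℝ → M}
    (he : ∀ t ∈ Icc a b, γ' t = γ t) : Steps f n ε γ' a b K := by
  obtain ⟨c, hc, h0, hK, H⟩ := h
  refine ⟨c, hc, h0, hK, fun i hi t ht t' ht' => ?_⟩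
  have h1 : a ≤ c i := by rw [← h0]; exact hc (Nat.zero_le _)
  have h2 : c (i + 1) ≤ b := by rw [← hK]; exact hc hi
  rw [he t ⟨h1.trans ht.1, ht.2.trans h2⟩, he t' ⟨h1.trans ht'.1, ht'.2.trans h2⟩]
  exact H i hi t ht t' ht'

/-- Steps of a subarc. -/
theorem Steps.sub {n K : ℕ} {ε : ℝ} (h : Steps f n ε γ a b K) {c d : ℝ} (hac : a ≤ c)
    (hcd : c ≤ d) (hdb : d ≤ b) : Steps f n ε γ c d K := by
  obtain ⟨p, hp, h0, hK, H⟩ := h
  refine ⟨fun i => max c (min (p i) d), fun i j hij => max_le_max le_rfl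
    (min_le_min (hp hij) le_rfl), ?_, ?_, fun i hi t ht t' ht' => ?_⟩
  · simp only [h0]
    rw [min_eq_left (hac.trans hcd), max_eq_left hac]
  · simp only [hK]
    rw [min_eq_right hdb, max_eq_right hcd]
  · rcases eq_or_ne t t' with rfl | hne
    · obtain ⟨x, hx⟩ : ∃ x, x ∈ Icc (p i) (p (i + 1)) := ⟨p i, le_rfl, hp (Nat.le_succ i)⟩
      have := H i hi x hx x hx
      rw [dist_self] at this ⊢
      exact this
    · -- the interval is not degenerate
      have key : ∀ u ∈ Icc (max c (min (p i) d)) (max c (min (p (i + 1)) d)),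
          ∀ v ∈ Icc (max c (min (p i) d)) (max c (min (p (i + 1)) d)), u < v →
            u ∈ Icc (p i) (p (i + 1)) ∧ v ∈ Icc (p i) (p (i + 1)) := by
        intro u hu v hv huv
        have h1 : max c (min (p i) d) < max c (min (p (i + 1)) d) :=
          hu.1.trans_lt (huv.trans_le hv.2)
        have h2 : c < min (p (i + 1)) d := by
          by_contra hcon
          push Not at hcon
          rw [max_eq_left hcon] at h1
          exact absurd (le_max_left c (min (p i) d)) (not_le.2 h1)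
        have h3 : max c (min (p (i + 1)) d) = min (p (i + 1)) d := max_eq_right h2.le
        have h4 : p i ≤ d := by
          by_contra hcon
          push Not at hcon
          rw [min_eq_right hcon.le, max_eq_right hcd] at h1
          exact absurd (h1.trans_le (max_le hcd (min_le_right _ _))) (lt_irrefl _)
        have h5 : p i ≤ max c (min (p i) d) := by
          rw [min_eq_left h4]
          exact le_max_right _ _
        have h6 : max c (min (p (i + 1)) d) ≤ p (i + 1) := by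
          rw [h3]
          exact min_le_left _ _
        exact ⟨⟨h5.trans hu.1, hu.2.trans h6⟩, ⟨h5.trans hv.1, hv.2.trans h6⟩⟩
      rcases lt_or_gt_of_ne hne with hlt | hlt
      · obtain ⟨h1, h2⟩ := key t ht t' ht' hlt
        exact H i hi t h1 t' h2
      · obtain ⟨h1, h2⟩ := key t' ht' t ht hlt
        exact H i hi t h2 t' h1

/-- Steps of an arc after an affine change of the parameter. -/
theorem Steps.affine {n K : ℕ} {ε α β c d : ℝ} (h : Steps f n ε γ (α * c + β) (α * d + β) K)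
    (hα : 0 < α) : Steps f n ε (fun t => γ (α * t + β)) c d K := by
  obtain ⟨p, hp, h0, hK, H⟩ := h
  refine ⟨fun i => (p i - β) / α, fun i j hij => ?_, ?_, ?_, fun i hi t ht t' ht' => ?_⟩
  · exact div_le_div_of_nonneg_right (by linarith [hp hij]) hα.le
  · simp only [h0]
    field_simp
    ring
  · simp only [hK]
    field_simp
    ring
  · have key : ∀ u ∈ Icc ((p i - β) / α) ((p (i + 1) - β) / α),
        α * u + β ∈ Icc (p i) (p (i + 1)) := by
      intro u hu
      have h1 := hu.1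
      have h2 := hu.2
      rw [div_le_iff₀ hα] at h1
      rw [le_div_iff₀ hα] at h2
      exact ⟨by linarith, by linarith⟩
    exact H i hi _ (key t ht) _ (key t' ht')

/-- Concatenation. -/
theorem Steps.append {n K L : ℕ} {ε c : ℝ} (h : Steps f n ε γ a b K) (h' : Steps f n ε γ b c L) :
    Steps f n ε γ a c (K + L) := by
  obtain ⟨p, hp, h0, hK, H⟩ := h
  obtain ⟨q, hq, h0', hL, H'⟩ := h'
  refine ⟨fun i => if i ≤ K then p i else q (i - K), ?_, ?_, ?_, ?_⟩
  · refine monotone_nat_of_le_succ fun i => ?_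
    rcases lt_trichotomy i K with hi | hi | hi
    · rw [if_pos hi.le, if_pos (show i + 1 ≤ K from hi)]
      exact hp (Nat.le_succ i)
    · subst hi
      rw [if_pos le_rfl, if_neg (by omega)]
      rw [hK, ← h0']
      exact hq (Nat.zero_le _)
    · rw [if_neg (by omega), if_neg (by omega)]
      exact hq (by omega)
  · simp only [Nat.zero_le, if_true, h0]
  · rcases Nat.eq_zero_or_pos L with hL0 | hL0
    · subst hL0
      simp only [Nat.add_zero, le_refl, if_true]
      rw [hK, ← h0', hL]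
    · dsimp only
      rw [if_neg (by omega), Nat.add_sub_cancel_left]
      exact hL
  · intro i hi t ht t' ht'
    rcases lt_or_ge i K with hiK | hiK
    · simp only [if_pos hiK.le, if_pos (show i + 1 ≤ K from hiK)] at ht ht'
      exact H i hiK t ht t' ht'
    · have e1 : (if i ≤ K then p i else q (i - K)) = q (i - K) := by
        rcases eq_or_lt_of_le hiK with h1 | h1
        · subst h1
          rw [if_pos le_rfl, Nat.sub_self, h0', hK]
        · rw [if_neg (by omega)]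
      have e2 : (if i + 1 ≤ K then p (i + 1) else q (i + 1 - K)) = q (i - K + 1) := by
        rw [if_neg (by omega)]
        congr 1
        omega
      dsimp only at ht ht'
      rw [e1, e2] at ht ht'
      exact H' (i - K) (by omega) t ht t' ht'

/-- One step. -/
theorem Steps.one {n : ℕ} {ε : ℝ} (hab : a ≤ b) (h : ∀ t ∈ Icc a b, ∀ t' ∈ Icc a b,
    dist (f^[n] (γ t)) (f^[n] (γ t')) ≤ ε) : Steps f n ε γ a b 1 := by
  refine ⟨fun i => if i = 0 then a else b, ?_, by simp, by simp, ?_⟩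
  · refine monotone_nat_of_le_succ fun i => ?_
    rcases Nat.eq_zero_or_pos i with hi | hi
    · subst hi
      simpa using hab
    · rw [if_neg (by omega), if_neg (by omega)]
  · intro i hi t ht t' ht'
    have : i = 0 := by omega
    subst this
    simp only [if_true, Nat.zero_add, one_ne_zero, if_false] at ht ht'
    exact h t ht t' ht'

/-- A longer partition. -/
theorem Steps.mono_card {n K L : ℕ} {ε : ℝ} (hε : 0 ≤ ε) (h : Steps f n ε γ a b K) (hKL : K ≤ L) :
    Steps f n ε γ a b L := by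
  obtain ⟨p, hp, h0, hK, H⟩ := h
  refine ⟨fun i => p (min i K), fun i j hij => hp (min_le_min hij le_rfl), ?_, ?_, ?_⟩
  · simp only [Nat.zero_le, min_eq_left, h0]
  · simp only [min_eq_right hKL, hK]
  · intro i hi t ht t' ht'
    rcases lt_or_ge i K with hiK | hiK
    · dsimp only at ht ht'
      rw [min_eq_left hiK.le, min_eq_left (show i + 1 ≤ K from hiK)] at ht ht'
      exact H i hiK t ht t' ht'
    · dsimp only at ht ht'
      rw [min_eq_right hiK, min_eq_right (by omega : K ≤ i + 1)] at ht ht'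
      have h1 : t = p K := le_antisymm ht.2 ht.1
      have h2 : t' = p K := le_antisymm ht'.2 ht'.1
      rw [h1, h2, dist_self]
      exact hε

/-- If the other arc is close to `γ` at time `n`. -/
theorem Steps.close {n K : ℕ} {ε δ : ℝ} (h : Steps f n ε γ a b K) {γ' : ℝ → M}
    (hc : ∀ t ∈ Icc a b, dist (f^[n] (γ' t)) (f^[n] (γ t)) ≤ δ) :
    Steps f n (ε + 2 * δ) γ' a b K := by
  obtain ⟨c, hcm, h0, hK, H⟩ := h
  refine ⟨c, hcm, h0, hK, fun i hi t ht t' ht' => ?_⟩
  have h1 : a ≤ c i := by rw [← h0]; exact hcm (Nat.zero_le _)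
  have h2 : c (i + 1) ≤ b := by rw [← hK]; exact hcm hi
  have e1 := hc t ⟨h1.trans ht.1, ht.2.trans h2⟩
  have e2 := hc t' ⟨h1.trans ht'.1, ht'.2.trans h2⟩
  have e3 := H i hi t ht t' ht'
  have e4 := dist_triangle4 (f^[n] (γ' t)) (f^[n] (γ t)) (f^[n] (γ t')) (f^[n] (γ' t'))
  rw [dist_comm (f^[n] (γ t')) (f^[n] (γ' t'))] at e4
  linarith

/-- Steps of the arc `f^m ∘ γ`. -/
theorem Steps.iter {n m K : ℕ} {ε : ℝ} (h : Steps f (n + m) ε γ a b K) :
    Steps f n ε (fun t => f^[m] (γ t)) a b K := by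
  obtain ⟨c, hc, h0, hK, H⟩ := h
  refine ⟨c, hc, h0, hK, fun i hi t ht t' ht' => ?_⟩
  have := H i hi t ht t' ht'
  rwa [iterate_add_apply, iterate_add_apply] at this

/-- Steps of the arc `f^{-m} ∘ γ`. -/
theorem Steps.symm_iter {n m K : ℕ} {ε : ℝ} (h : Steps f n ε γ a b K) :
    Steps f (n + m) ε (fun t => f.symm^[m] (γ t)) a b K := by
  obtain ⟨c, hc, h0, hK, H⟩ := h
  refine ⟨c, hc, h0, hK, fun i hi t ht t' ht' => ?_⟩
  have := H i hi t ht t' ht'
  rw [iterate_add_apply, iterate_add_apply, iterate_symm_iterate, iterate_symm_iterate]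
  exact this

/-! ### Small pieces -/

/-- A piece of an unstable arc which is small at time `N` is then contained in a local unstable
set. -/
theorem UArc.mem_loc {ε ε₀ C θ : ℝ} (hD : Dec f.symm ε₀ C θ) (hε : 0 < ε) (hε₀ : 3 * C * ε < ε₀)
    (h : UArc f γ a b) {N : ℕ} {c d : ℝ} (hac : a ≤ c) (hcd : c ≤ d) (hdb : d ≤ b)
    (hclose : ∀ τ ∈ Icc c d, dist (f^[N] (γ τ)) (f^[N] (γ c)) ≤ 3 * ε) :
    f^[N] (γ d) ∈ Wl f.symm ε₀ (f^[N] (γ c)) := by
  have hR : Rct f ε (fun p => γ (c + p.2)) 0 (d - c) := by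
    refine ⟨?_, ?_, ?_⟩
    · refine h.cont.comp (by fun_prop) ?_
      rintro ⟨s, t⟩ ⟨-, ht⟩
      exact ⟨by linarith [ht.1], by linarith [ht.2]⟩
    · obtain ⟨N', hN'⟩ := h.asymp ε hε
      refine ⟨N', fun n hn s _ t ht t' ht' => ?_⟩
      exact hN' n hn _ ⟨by linarith [ht.1], by linarith [ht.2]⟩ _
        ⟨by linarith [ht'.1], by linarith [ht'.2]⟩
    · refine ⟨0, fun n _ t _ s _ s' _ => ?_⟩
      rw [dist_self]
      exact hε.le
  have h1 := hR.mem_loc hD hε hε₀ (N := N) (s := 0) ⟨le_rfl, le_rfl⟩ (a := 0) (b := d - c)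
    (by linarith) le_rfl le_rfl (fun τ hτ => by
      simp only [add_zero]
      exact hclose _ ⟨by linarith [hτ.1], by linarith [hτ.2]⟩)
  simp only [add_zero] at h1
  rwa [show c + (d - c) = d by ring] at h1

/-- The same for all pairs of points of the piece. -/
theorem UArc.mem_loc' {ε ε₀ C θ : ℝ} (hD : Dec f.symm ε₀ C θ) (hε : 0 < ε)
    (hε₀ : 3 * C * ε < ε₀) (h : UArc f γ a b) {N : ℕ} {c d : ℝ} (hac : a ≤ c) (hdb : d ≤ b)
    (hclose : ∀ τ ∈ Icc c d, ∀ τ' ∈ Icc c d, dist (f^[N] (γ τ)) (f^[N] (γ τ')) ≤ 3 * ε)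
    {t t' : ℝ} (ht : t ∈ Icc c d) (ht' : t' ∈ Icc c d) :
    f^[N] (γ t) ∈ Wl f.symm ε₀ (f^[N] (γ t')) := by
  rcases le_total t t' with hle | hle
  · refine Wl_comm (h.mem_loc hD hε hε₀ (hac.trans ht.1) hle (ht'.2.trans hdb) fun τ hτ => ?_)
    exact hclose τ ⟨ht.1.trans hτ.1, hτ.2.trans ht'.2⟩ t ht
  · refine h.mem_loc hD hε hε₀ (hac.trans ht'.1) hle (ht.2.trans hdb) fun τ hτ => ?_
    exact hclose τ ⟨ht'.1.trans hτ.1, hτ.2.trans ht.2⟩ t' ht'

/-- An unstable arc with `K` steps at time `N` has diameter at most `K * (3 ε C θ^(N+n))` at time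
`-n`. -/
theorem UArc.dist_le {ε ε₀ C θ : ℝ} (hD : Dec f.symm ε₀ C θ) (hε : 0 < ε)
    (hε₀ : 3 * C * ε < ε₀) (h : UArc f γ a b) {N K : ℕ} (hS : Steps f N (3 * ε) γ a b K) (n : ℕ)
    {t t' : ℝ} (ht : t ∈ Icc a b) (ht' : t' ∈ Icc a b) :
    dist (f.symm^[n] (γ t)) (f.symm^[n] (γ t')) ≤ K * (3 * ε * C * θ ^ (N + n)) := by
  wlog htt : t ≤ t' generalizing t t'
  · rw [dist_comm]
    exact this ht' ht (le_of_not_ge htt)
  have hC := hD.one_le
  obtain ⟨c, hcm, h0, hK, H⟩ := hS.sub ht.1 htt ht'.2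
  have hpiece : ∀ i < K, dist (f.symm^[n] (γ (c i))) (f.symm^[n] (γ (c (i + 1))))
      ≤ 3 * ε * C * θ ^ (N + n) := by
    intro i hi
    have hci : t ≤ c i := by rw [← h0]; exact hcm (Nat.zero_le _)
    have hci' : c (i + 1) ≤ t' := by rw [← hK]; exact hcm hi
    have hle : c i ≤ c (i + 1) := hcm (Nat.le_succ i)
    have h1 := h.mem_loc' hD hε hε₀ (N := N) (ht.1.trans hci) (hci'.trans ht'.2)
      (fun τ hτ τ' hτ' => H i hi τ hτ τ' hτ') (t := c i) (t' := c (i + 1)) ⟨le_rfl, hle⟩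
      ⟨hle, le_rfl⟩
    have h2 := hD.dec _ _ h1 (n + N)
    rw [iterate_add_apply, iterate_add_apply, symm_iterate_iterate, symm_iterate_iterate] at h2
    have h3 := H i hi (c i) ⟨le_rfl, hle⟩ (c (i + 1)) ⟨hle, le_rfl⟩
    refine h2.trans ?_
    have h4 : 0 ≤ θ ^ (n + N) := pow_nonneg hD.l_pos.le _
    calc C * θ ^ (n + N) * dist (f^[N] (γ (c i))) (f^[N] (γ (c (i + 1))))
        ≤ C * θ ^ (n + N) * (3 * ε) := by gcongr
      _ = 3 * ε * C * θ ^ (N + n) := by rw [add_comm n N]; ring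
  have hsum := dist_le_range_sum_dist (fun i => f.symm^[n] (γ (c i))) K
  rw [h0, hK] at hsum
  refine hsum.trans ?_
  refine (Finset.sum_le_sum fun i hi => hpiece i (Finset.mem_range.1 hi)).trans ?_
  rw [Finset.sum_const, Finset.card_range, nsmul_eq_mul]

end Pool.Agent.Lib.MP610fe3.H6
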