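import Pool.Agent.Lib.MP_610fe3_an.H6G.Arc
import Pool.Agent.Lib.MP_610fe3_an.H6.Gps

/-!
# The a priori bound for rectangles in terms of the growth of arcs
-/

open Set Filter Function
open scoped Topology

namespace Pool.Agent.Lib.MP610fe3.H6

open Cf

variable {M : Type*} [MetricSpace M] {f : M ≃ₜ M}

/-- Lower bound for the growth of unstable arcs. -/
def Low (f : M ≃ₜ M) (ε α C₁ : ℝ) : Prop :=
  ∀ γ : ℝ → M, UArc f γ 0 1 → ε ≤ dist (γ 0) (γ 1) → ∀ n K : ℕ, Steps f n ε γ 0 1 K →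
    Real.exp (α * n) ≤ C₁ * K

/-- Upper bound for the growth of an arc. -/
def Upp (f : M ≃ₜ M) (ε α Λ : ℝ) (x : ℝ → M) : Prop :=
  ∀ n : ℕ, ∃ K : ℕ, (K : ℝ) ≤ Λ * Real.exp (α * n) ∧ Steps f n ε x 0 1 K

variable {ε ε₀ C θ S T : ℝ} {R : ℝ × ℝ → M}

/-- Horizontal lines of rectangles are unstable arcs. -/
theorem Rct.uarc (hD : Dec f.symm ε₀ C θ) (hε₀ : ε ≤ ε₀) (h : Rct f ε R S T) {s : ℝ}
    (hs : s ∈ Icc (0 : ℝ) S) : UArc f (fun t => R (s, t)) 0 T := by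
  refine ⟨h.contH hs, fun ε' hε' => ?_⟩
  obtain ⟨N, hN⟩ := h.hor
  have hC := hD.one_le
  obtain ⟨m, hm⟩ := exists_pow_le (C := C) (ε := ε₀) hD.l_pos hD.l_lt hε'
  refine ⟨m + N, fun n hn t ht t' ht' => ?_⟩
  obtain ⟨j, rfl⟩ : ∃ j, n = (m + j) + N := ⟨n - N - m, by omega⟩
  have h1 : f.symm^[N] (R (s, t)) ∈ Wl f.symm ε₀ (f.symm^[N] (R (s, t'))) := by
    intro k
    rw [← iterate_add_apply, ← iterate_add_apply]
    exact (hN (k + N) (by omega) s hs t ht t' ht').trans hε₀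
  have h2 := hD.dec _ _ h1 (m + j)
  rw [← iterate_add_apply, ← iterate_add_apply] at h2
  refine h2.trans (le_trans ?_ hm)
  have h3 : θ ^ (m + j) ≤ θ ^ m :=
    pow_le_pow_of_le_one hD.l_pos.le hD.l_lt.le (Nat.le_add_right _ _)
  have h4 : 0 ≤ θ ^ m := pow_nonneg hD.l_pos.le _
  have h5 := Wl_dist h1
  have h6 : 0 ≤ θ ^ (m + j) := pow_nonneg hD.l_pos.le _
  gcongr

/-- If all vertical lines are short at time `N` then the horizontal lines are short at time `-n`,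
unless the bottom line has many steps at time `N`. -/
theorem Rct.hor_close {α₁ C₁ : ℝ} (hD : Dec f.symm ε₀ C θ) (hε : 0 < ε) (hε₀ : ε ≤ ε₀)
    (hlow : Low f (3 * ε) α₁ C₁) (h : Rct f ε R S T) (hS : 0 ≤ S) {N K : ℕ}
    (hup : Steps f N ε (fun t => R (0, t)) 0 T K)
    (hN : ∀ t ∈ Icc (0 : ℝ) T, ∀ s ∈ Icc (0 : ℝ) S, ∀ s' ∈ Icc (0 : ℝ) S,
      dist (f^[N] (R (s, t))) (f^[N] (R (s', t))) ≤ ε)
    (n : ℕ) {s : ℝ} (hs : s ∈ Icc (0 : ℝ) S) {t t' : ℝ} (ht : t ∈ Icc (0 : ℝ) T)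
    (ht' : t' ∈ Icc (0 : ℝ) T) (hK : C₁ * K < Real.exp (α₁ * (n + N))) :
    dist (f.symm^[n] (R (s, t))) (f.symm^[n] (R (s, t'))) < 3 * ε := by
  wlog htt : t ≤ t' generalizing t t'
  · rw [dist_comm]
    exact this ht' ht (le_of_not_ge htt)
  rcases eq_or_lt_of_le htt with rfl | hlt
  · rw [dist_self]
    linarith
  by_contra hcon
  push Not at hcon
  have h0S : (0 : ℝ) ∈ Icc (0 : ℝ) S := ⟨le_rfl, hS⟩
  have hd : 0 < t' - t := by linarith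
  set γ : ℝ → M := fun τ => f.symm^[n] (R (s, (t' - t) * τ + t)) with hγ
  have e0 : (t' - t) * 0 + t = t := by ring
  have e1 : (t' - t) * 1 + t = t' := by ring
  have hU : UArc f γ 0 1 := by
    have h1 := (h.uarc hD hε₀ hs).affine (α := t' - t) (β := t) (c := 0) (d := 1) hd.le
      (by rw [e0]; exact ht.1) (by rw [e1]; exact ht'.2)
    exact h1.symm_iter n
  have hSt : Steps f (N + n) (3 * ε) γ 0 1 K := by
    have h1 : Steps f N (ε + 2 * ε) (fun t => R (s, t)) 0 T K :=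
      hup.close fun τ hτ => hN τ hτ s hs 0 h0S
    have h2 : Steps f N (3 * ε) (fun t => R (s, t)) 0 T K := h1.mono_eps (by linarith)
    have h3 := h2.sub ht.1 htt ht'.2
    have h4 : Steps f N (3 * ε) (fun t => R (s, t)) ((t' - t) * 0 + t) ((t' - t) * 1 + t) K := by
      rw [e0, e1]
      exact h3
    exact (h4.affine hd).symm_iter
  have hdist : 3 * ε ≤ dist (γ 0) (γ 1) := by
    simp only [hγ, e0, e1]
    exact hcon
  have := hlow γ hU hdist (N + n) K hSt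
  rw [show ((N + n : ℕ) : ℝ) = n + N by push_cast; ring] at this
  linarith

/-- The step from vertical to horizontal lines, for all later times. -/
theorem exists_hor_step {α₁ α₂ C₁ : ℝ} (hα₁ : 0 < α₁) (hα : α₁ ≤ α₂) (hC₁ : 0 ≤ C₁)
    (hD : Dec f.symm ε₀ C θ) (hε : 0 < ε) (hε₀ : 3 * ε ≤ ε₀) (hlow : Low f (3 * ε) α₁ C₁)
    (Λ : ℝ) : ∃ c : ℝ, 0 ≤ c ∧ ∀ x : ℝ → M, Upp f ε α₂ Λ x →
      ∀ (S T : ℝ) (R : ℝ × ℝ → M), 0 ≤ S → 0 ≤ T → T ≤ 1 → Rct f ε R S T →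
      (∀ t ∈ Icc (0 : ℝ) T, R (0, t) = x t) → ∀ N N' : ℕ,
      (∀ t ∈ Icc (0 : ℝ) T, ∀ s ∈ Icc (0 : ℝ) S, ∀ s' ∈ Icc (0 : ℝ) S,
        dist (f^[N] (R (s, t))) (f^[N] (R (s', t))) ≤ ε) →
      (α₂ / α₁ - 1) * N + c ≤ N' → ∀ n ≥ N', ∀ s ∈ Icc (0 : ℝ) S, ∀ t ∈ Icc (0 : ℝ) T,
        ∀ t' ∈ Icc (0 : ℝ) T, dist (f.symm^[n] (R (s, t))) (f.symm^[n] (R (s, t'))) ≤ ε := by
  have hC := hD.one_le
  have hεε₀ : ε ≤ ε₀ := by linarith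
  obtain ⟨m₀, hm₀⟩ := exists_pow_le (C := C) (ε := 3 * ε) hD.l_pos hD.l_lt hε
  obtain ⟨c₀, hc₀, hc₀'⟩ := exists_const α₁ (C₁ * max Λ 1 + 2) hα₁ (by
    have : 0 ≤ C₁ * max Λ 1 := mul_nonneg hC₁ (le_trans zero_le_one (le_max_right _ _))
    linarith)
  refine ⟨c₀ + m₀, by positivity, fun x hx S T R hS hT hT1 hR hb N N' hN hNN n hn s hs t ht t' ht'
    => ?_⟩
  obtain ⟨K, hK, hSt⟩ := hx N
  have hup : Steps f N ε (fun t => R (0, t)) 0 T K :=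
    (hSt.sub le_rfl hT hT1).congr fun t ht => hb t ht
  have hnR : (N' : ℝ) ≤ n := by exact_mod_cast hn
  have ha0 : 0 ≤ (α₂ / α₁ - 1) * N := by
    have : 1 ≤ α₂ / α₁ := by
      rw [one_le_div hα₁]
      exact hα
    have h1 : 0 ≤ α₂ / α₁ - 1 := by linarith
    positivity
  -- the exponents
  have hkey : ∀ k : ℕ, (α₂ / α₁ - 1) * N + c₀ ≤ k → C₁ * K < Real.exp (α₁ * (k + N)) := by
    intro k hk
    have h1 : C₁ * K ≤ C₁ * max Λ 1 * Real.exp (α₂ * N) := by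
      have h2 : (K : ℝ) ≤ max Λ 1 * Real.exp (α₂ * N) := hK.trans (by
        gcongr
        exact le_max_left _ _)
      calc C₁ * K ≤ C₁ * (max Λ 1 * Real.exp (α₂ * N)) := by gcongr
        _ = _ := by ring
    have h3 : C₁ * max Λ 1 * Real.exp (α₂ * N) <
        Real.exp (α₁ * c₀) * Real.exp (α₂ * N) := by
      have : 0 < Real.exp (α₂ * N) := Real.exp_pos _
      have h4 : C₁ * max Λ 1 < Real.exp (α₁ * c₀) := by linarith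
      exact mul_lt_mul_of_pos_right h4 this
    have h5 : Real.exp (α₁ * c₀) * Real.exp (α₂ * N) ≤ Real.exp (α₁ * (k + N)) := by
      rw [← Real.exp_add]
      apply Real.exp_le_exp.2
      have h6 : α₁ * ((α₂ / α₁ - 1) * N + c₀) ≤ α₁ * k := mul_le_mul_of_nonneg_left hk hα₁.le
      have h7 : α₁ * ((α₂ / α₁ - 1) * N + c₀) = α₂ * N - α₁ * N + α₁ * c₀ := by
        field_simp
      linarith
    linarith
  have hcase : (α₂ / α₁ - 1) * N + c₀ ≤ (n : ℝ) - m₀ := by linarith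
  have hmn : m₀ ≤ n := by
    have : (m₀ : ℝ) ≤ n := by linarith
    exact_mod_cast this
  obtain ⟨n', rfl⟩ := Nat.exists_eq_add_of_le hmn
  have hn' : (α₂ / α₁ - 1) * N + c₀ ≤ (n' : ℝ) := by
    push_cast at hcase
    linarith
  have h1 : f.symm^[n'] (R (s, t)) ∈ Wl f.symm ε₀ (f.symm^[n'] (R (s, t'))) := by
    intro k
    rw [← iterate_add_apply, ← iterate_add_apply]
    refine (hR.hor_close hD hε hεε₀ hlow hS hup hN (k + n') hs ht ht' ?_).le.trans hε₀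
    refine hkey (k + n') ?_
    push_cast
    have : (0 : ℝ) ≤ k := Nat.cast_nonneg k
    linarith
  have h2 := hD.dec _ _ h1 m₀
  rw [← iterate_add_apply, ← iterate_add_apply] at h2
  refine h2.trans (le_trans ?_ hm₀)
  have h3 : dist (f.symm^[n'] (R (s, t))) (f.symm^[n'] (R (s, t'))) < 3 * ε :=
    hR.hor_close hD hε hεε₀ hlow hS hup hN n' hs ht ht' (hkey n' hn')
  have h4 : 0 ≤ θ ^ m₀ := pow_nonneg hD.l_pos.le _
  gcongr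

/-- The size of rectangles with given left and bottom sides is bounded. -/
theorem rect_bound_gen {α₁ α₂ β₁ β₂ C₁ C₂ ν : ℝ} (hα₁ : 0 < α₁) (hα : α₁ ≤ α₂)
    (hβ₁ : 0 < β₁) (hβ : β₁ ≤ β₂) (hab : (α₂ - α₁) * (β₂ - β₁) < α₁ * β₁) (hC₁ : 0 ≤ C₁)
    (hC₂ : 0 ≤ C₂) (hD : Dec f ε₀ C ν) (hD' : Dec f.symm ε₀ C θ) (hε : 0 < ε)
    (hε₀ : 3 * ε ≤ ε₀) (hlow : Low f (3 * ε) α₁ C₁) (hlow' : Low f.symm (3 * ε) β₁ C₂)
    (Λ Λ' : ℝ) : ∃ N₀ : ℕ, ∀ x σ : ℝ → M, Upp f ε α₂ Λ x → Upp f.symm ε β₂ Λ' σ → ∀ (T : ℝ) (R : ℝ × ℝ → M), 0 ≤ T → T ≤ 1 → Rct f ε R 1 T →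
      (∀ s ∈ Icc (0 : ℝ) 1, R (s, 0) = σ s) → (∀ t ∈ Icc (0 : ℝ) T, R (0, t) = x t) →
      (∀ n ≥ N₀, ∀ t ∈ Icc (0 : ℝ) T, ∀ s ∈ Icc (0 : ℝ) 1, ∀ s' ∈ Icc (0 : ℝ) 1,
        dist (f^[n] (R (s, t))) (f^[n] (R (s', t))) ≤ ε) ∧
      (∀ n ≥ N₀, ∀ s ∈ Icc (0 : ℝ) 1, ∀ t ∈ Icc (0 : ℝ) T, ∀ t' ∈ Icc (0 : ℝ) T,
        dist (f.symm^[n] (R (s, t))) (f.symm^[n] (R (s, t'))) ≤ ε) := by
  obtain ⟨c₁, hc₁, h₁⟩ := exists_hor_step hα₁ hα hC₁ hD' hε hε₀ hlow Λ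
  obtain ⟨c₂, hc₂, h₂⟩ := exists_hor_step (f := f.symm) hβ₁ hβ hC₂ hD hε hε₀ hlow' Λ'
  set a : ℝ := α₂ / α₁ - 1 with ha
  set b : ℝ := β₂ / β₁ - 1 with hb
  have ha0 : 0 ≤ a := by
    have : 1 ≤ α₂ / α₁ := by
      rw [one_le_div hα₁]
      exact hα
    linarith
  have hb0 : 0 ≤ b := by
    have : 1 ≤ β₂ / β₁ := by
      rw [one_le_div hβ₁]
      exact hβ
    linarith
  have hab' : a * b < 1 := by
    have e1 : a * b = ((α₂ - α₁) * (β₂ - β₁)) / (α₁ * β₁) := by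
      rw [ha, hb]
      field_simp
    rw [e1, div_lt_one (mul_pos hα₁ hβ₁)]
    exact hab
  set c : ℝ := max c₁ c₂ with hc
  have hc0 : 0 ≤ c := hc₁.trans (le_max_left _ _)
  refine ⟨max ⌈(b * (c + 1) + c + 1) / (1 - a * b)⌉₊
    ⌈a * (⌈(b * (c + 1) + c + 1) / (1 - a * b)⌉₊ : ℝ) + c⌉₊,
    fun x σ hx hσ T R hT hT1 hR hl hbo => ?_⟩
  set P : ℕ → Prop := fun N => ∀ n ≥ N, ∀ t ∈ Icc (0 : ℝ) T, ∀ s ∈ Icc (0 : ℝ) 1,
    ∀ s' ∈ Icc (0 : ℝ) 1, dist (f^[n] (R (s, t))) (f^[n] (R (s', t))) ≤ ε with hP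
  set Q : ℕ → Prop := fun N => ∀ n ≥ N, ∀ s ∈ Icc (0 : ℝ) 1, ∀ t ∈ Icc (0 : ℝ) T,
    ∀ t' ∈ Icc (0 : ℝ) T, dist (f.symm^[n] (R (s, t))) (f.symm^[n] (R (s, t'))) ≤ ε with hQ
  have hPQ : ∀ N N' : ℕ, P N → a * N + c ≤ N' → Q N' := by
    intro N N' hN hNN
    refine h₁ x hx 1 T R zero_le_one hT hT1 hR hbo N N' (fun t ht s hs s' hs' =>
      hN N le_rfl t ht s hs s' hs') ?_
    have : c₁ ≤ c := le_max_left _ _
    linarith
  have hQP : ∀ N' N : ℕ, Q N' → b * N' + c ≤ N → P N := by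
    intro N N' hN hNN
    refine h₂ σ hσ T 1 (fun p => R (p.2, p.1)) hT zero_le_one le_rfl hR.swap ?_ N N'
      (fun s hs t ht t' ht' => hN N le_rfl s hs t ht t' ht') ?_
    · intro s hs
      exact hl s hs
    · have : c₂ ≤ c := le_max_right _ _
      linarith
  have hP0 : P ⌈(b * (c + 1) + c + 1) / (1 - a * b)⌉₊ :=
    close_loop ha0 hb0 hc0 hab' hR.ver hPQ hQP (fun N N' hNN h n hn => h n (hNN.trans hn))
      (Nat.le_ceil _)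
  have hQ0 := hPQ _ _ hP0 (Nat.le_ceil _)
  exact ⟨fun n hn => hP0 n ((le_max_left _ _).trans hn),
    fun n hn => hQ0 n ((le_max_right _ _).trans hn)⟩

end Pool.Agent.Lib.MP610fe3.H6
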