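import Pool.Agent.Lib.MP_610fe3_an.H6G.Ext

/-!
# The fourth corner of a rectangle
-/

open Set Filter Function
open scoped Topology

namespace Pool.Agent.Lib.MP610fe3.H6

open Cf

variable {M : Type*} [MetricSpace M] {f : M ≃ₜ M}

/-- If the size of the rectangles with left side `σ` and bottom side `x` is bounded, then the
rectangle exists. -/
theorem exists_corner [CompactSpace M] {ε₀ C ν θ ε ε₁ CB : ℝ} (hD : Dec f ε₀ C ν)
    (hD' : Dec f.symm ε₀ C θ) (hε : 0 < ε) (hεε₀ : ε ≤ ε₀) (hB : Br f ε CB) (hε₁ : 0 < ε₁)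
    (hε₁ε : 2 * ε₁ ≤ ε) {x σ : ℝ → M} (hx : UArc f x 0 1) (hσ : UArc f.symm σ 0 1)
    (h0 : σ 0 = x 0) {N₀ : ℕ}
    (hN₀ : ∀ (T : ℝ) (R : ℝ × ℝ → M), 0 ≤ T → T ≤ 1 → Rct f ε R 1 T →
      (∀ s ∈ Icc (0 : ℝ) 1, R (s, 0) = σ s) → (∀ t ∈ Icc (0 : ℝ) T, R (0, t) = x t) →
      (∀ n ≥ N₀, ∀ t ∈ Icc (0 : ℝ) T, ∀ s ∈ Icc (0 : ℝ) 1, ∀ s' ∈ Icc (0 : ℝ) 1,
        dist (f^[n] (R (s, t))) (f^[n] (R (s', t))) ≤ ε) ∧
      (∀ n ≥ N₀, ∀ s ∈ Icc (0 : ℝ) 1, ∀ t ∈ Icc (0 : ℝ) T, ∀ t' ∈ Icc (0 : ℝ) T,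
        dist (f.symm^[n] (R (s, t))) (f.symm^[n] (R (s, t'))) ≤ ε)) :
    ∃ w : M, (∀ n ≥ N₀, dist (f^[n] w) (f^[n] (x 1)) ≤ ε) ∧
      ∀ n ≥ N₀, dist (f.symm^[n] w) (f.symm^[n] (σ 1)) ≤ ε := by
  obtain ⟨η, hη, hext⟩ := exists_ext_gen hD hD' hε hεε₀ hB hε₁ hε₁ε (σ := σ) hx N₀
  have key : ∀ k : ℕ, ∃ R : ℝ × ℝ → M, Rct f ε R 1 (min (k * η) 1) ∧
      (∀ s ∈ Icc (0 : ℝ) 1, R (s, 0) = σ s) ∧
      (∀ t ∈ Icc (0 : ℝ) (min (k * η) 1), R (0, t) = x t) := by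
    intro k
    induction k with
    | zero =>
      have e : min (((0 : ℕ) : ℝ) * η) 1 = 0 := by simp
      rw [e]
      refine ⟨fun q => σ q.1, ⟨?_, ?_, ?_⟩, fun s _ => rfl, ?_⟩
      · exact hσ.cont.comp continuous_fst.continuousOn fun q hq => hq.1
      · refine ⟨0, fun n _ s _ t _ t' _ => ?_⟩
        rw [dist_self]
        exact hε.le
      · obtain ⟨N, hN⟩ := hσ.asymp ε hε
        exact ⟨N, fun n hn t _ s hs s' hs' => hN n hn s hs s' hs'⟩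
      · intro t ht
        have : t = 0 := le_antisymm ht.2 ht.1
        rw [this, ← h0]
    | succ k ih =>
      obtain ⟨R, hR, hl, hb⟩ := ih
      have hT0 : 0 ≤ min ((k : ℝ) * η) 1 := by positivity
      have hT1 : min ((k : ℝ) * η) 1 ≤ 1 := min_le_right _ _
      refine hext (min (k * η) 1) (min (((k + 1 : ℕ) : ℝ) * η) 1) R hT0 ?_ ?_
        (min_le_right _ _) hR (hN₀ _ R hT0 hT1 hR hl hb).1 hl hb
      · refine min_le_min ?_ le_rfl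
        push_cast
        nlinarith
      · push_cast
        rcases le_total ((k : ℝ) * η) 1 with h1 | h1
        · rw [min_eq_left h1]
          exact (min_le_left _ _).trans (by linarith)
        · rw [min_eq_right h1]
          exact (min_le_right _ _).trans (by linarith)
  obtain ⟨k, hk⟩ := exists_nat_gt (1 / η)
  have hk1 : min ((k : ℝ) * η) 1 = 1 := by
    apply min_eq_right
    rw [div_lt_iff₀ hη] at hk
    exact hk.le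
  obtain ⟨R, hR, hl, hb⟩ := key k
  rw [hk1] at hR hb
  have h01 : (0 : ℝ) ∈ Icc (0 : ℝ) 1 := ⟨le_rfl, zero_le_one⟩
  have h11 : (1 : ℝ) ∈ Icc (0 : ℝ) 1 := ⟨zero_le_one, le_rfl⟩
  obtain ⟨hv, hh⟩ := hN₀ 1 R zero_le_one le_rfl hR hl hb
  refine ⟨R (1, 1), fun n hn => ?_, fun n hn => ?_⟩
  · rw [← hb 1 h11]
    exact hv n hn 1 h11 1 h11 0 h01
  · rw [← hl 1 h11]
    exact hh n hn 1 h11 1 h11 0 h01

end Pool.Agent.Lib.MP610fe3.H6
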